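import Mathlib
import Pool.Agent.R957.Mmpp.Defs

/-!
# Q2 of MP_af8c33_pr: the squared coefficient of variation of an MMPP is at least one

For every Markov-modulated Poisson process, of any order, the matrix `C = Q - D` is invertible and
`(π C 1) (π C⁻¹ 1) ≥ 1`, which is `c² ≥ 1`. Equality holds if and only if all the arrival rates are
equal (that is, only for the Poisson process).

Proof. Let `x = (-C)⁻¹ 1`; by the minimum principle `x > 0`. From `D x - Q x = 1` we get
`λ_i - 1 / x_i = (Q x)_i / x_i = ∑_{j ≠ i} Q_ij (x_j / x_i - 1) ≥ ∑_j Q_ij log x_j`, and the mean with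
respect to `π` is `π D 1 - ∑ π_i / x_i ≥ 0`. By the inequality of Cauchy and Schwarz
`∑ π_i / x_i ≥ 1 / ∑ π_i x_i`.
-/

set_option autoImplicit false

namespace Pool.Agent.Results.MP_af8c33_pr.SquaredCoefficientOfVariation

open Matrix Pool.R957.Mmpp

variable {p : ℕ} (M : MMPP p)

/-- `(Q x)_i = ∑_j Q_ij (x_j - x_i)` -/
lemma Q_mul (x : Fin p → ℝ) (i : Fin p) :
    (M.Q *ᵥ x) i = ∑ j, M.Q i j * (x j - x i) := by
  have h : ∑ j, M.Q i j * (x j - x i) = ∑ j, M.Q i j * x j - (∑ j, M.Q i j) * x i := by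
    rw [Finset.sum_mul, ← Finset.sum_sub_distrib]
    exact Finset.sum_congr rfl fun j _ => by ring
  rw [h, M.gen.rowsum i, zero_mul, sub_zero]
  rfl

lemma C_mul (x : Fin p → ℝ) (i : Fin p) :
    (M.C *ᵥ x) i = ∑ j, M.Q i j * (x j - x i) - M.lam i * x i := by
  rw [MMPP.C, Matrix.sub_mulVec, Pi.sub_apply, Q_mul, MMPP.D, Matrix.mulVec_diagonal]

/-- maximum principle: a vector in the kernel of `C` has no positive entries -/
lemma ker_nonpos (v : Fin p → ℝ) (hv : M.C *ᵥ v = 0) (i : Fin p) : v i ≤ 0 := by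
  classical
  have : Nonempty (Fin p) := ⟨i⟩
  obtain ⟨m, hm⟩ := Finite.exists_max v
  by_contra hi
  push Not at hi
  have hmpos : 0 < v m := hi.trans_le (hm i)
  -- all states have the value `v m` and rate zero
  have key : ∀ a, v a = v m → M.lam a = 0 ∧ ∀ b, 0 < M.Q a b → v b = v m := by
    intro a ha
    have h1 : ∑ j, M.Q a j * (v j - v a) - M.lam a * v a = 0 := by
      rw [← C_mul, hv]; rfl
    have h2 : ∀ j, M.Q a j * (v j - v a) ≤ 0 := by
      intro j
      by_cases hj : a = j
      · subst hj; simp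
      · exact mul_nonpos_of_nonneg_of_nonpos (M.gen.offdiag a j hj) (by rw [ha]; linarith [hm j])
    have h3 : ∑ j, M.Q a j * (v j - v a) ≤ 0 := Finset.sum_nonpos fun j _ => h2 j
    have h4 : 0 ≤ M.lam a * v a := mul_nonneg (M.lam_nonneg a) (by rw [ha]; exact hmpos.le)
    have h5 : M.lam a * v a = 0 := by linarith
    have h6 : ∑ j, M.Q a j * (v j - v a) = 0 := by linarith
    refine ⟨?_, fun b hb => ?_⟩
    · rcases mul_eq_zero.1 h5 with h | h
      · exact h
      · rw [ha] at h; linarith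
    · have h7 : ∀ j ∈ Finset.univ, M.Q a j * (v j - v a) = 0 := by
        have := (Finset.sum_eq_zero_iff_of_nonpos (s := Finset.univ) fun j _ => h2 j).1 h6
        exact this
      have h8 := h7 b (Finset.mem_univ b)
      rcases mul_eq_zero.1 h8 with h | h
      · linarith
      · linarith
  have all : ∀ a, v a = v m := by
    intro a
    have hr := M.gen.irred m a
    induction hr with
    | refl => rfl
    | tail _ hbc ih => exact (key _ ih).2 _ hbc
  obtain ⟨k, hk⟩ := M.lam_ne
  exact hk (key k (all k)).1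

/-- `C` is nonsingular. -/
lemma C_unit : IsUnit M.C := by
  rw [← Matrix.mulVec_injective_iff_isUnit]
  intro a b hab
  have h : M.C *ᵥ (a - b) = 0 := by
    rw [Matrix.mulVec_sub]
    exact sub_eq_zero.2 hab
  have h' : M.C *ᵥ (b - a) = 0 := by
    rw [Matrix.mulVec_sub]
    exact sub_eq_zero.2 hab.symm
  funext i
  have h1 := ker_nonpos M _ h i
  have h2 := ker_nonpos M _ h' i
  simp only [Pi.sub_apply] at h1 h2
  linarith

/-- stationary probabilities of an irreducible chain are positive -/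
lemma stat_pos {piv : Fin p → ℝ} (h : M.IsStat piv) (i : Fin p) : 0 < piv i := by
  classical
  have key : ∀ b, piv b = 0 → ∀ a, 0 < M.Q a b → piv a = 0 := by
    intro b hb a hab
    have h1 : ∑ i, piv i * M.Q i b = 0 := congrFun h.stat b
    have h2 : ∀ i ∈ Finset.univ, 0 ≤ piv i * M.Q i b := by
      intro i _
      by_cases hi : i = b
      · subst hi; rw [hb]; simp
      · exact mul_nonneg (h.nonneg i) (M.gen.offdiag i b hi)
    have h3 := (Finset.sum_eq_zero_iff_of_nonneg h2).1 h1 a (Finset.mem_univ a)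
    rcases mul_eq_zero.1 h3 with h4 | h4
    · exact h4
    · linarith
  by_contra hi
  have hi0 : piv i = 0 := le_antisymm (not_lt.1 hi) (h.nonneg i)
  have all : ∀ a, piv a = 0 := by
    intro a
    have hr := M.gen.irred a i
    induction hr using Relation.ReflTransGen.head_induction_on with
    | refl => exact hi0
    | head hac _ ih => exact key _ ih _ hac
  have := h.sum_one
  simp [all] at this

/-- `x = (-C)⁻¹ 1` -/
noncomputable def xv : Fin p → ℝ := -(M.C⁻¹ *ᵥ 1)

lemma C_xv : M.C *ᵥ xv M = -1 := by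
  unfold xv
  rw [Matrix.mulVec_neg, Matrix.mulVec_mulVec, Matrix.mul_nonsing_inv _
    ((Matrix.isUnit_iff_isUnit_det _).1 (C_unit M)), Matrix.one_mulVec]

lemma xv_eq (i : Fin p) : ∑ j, M.Q i j * (xv M j - xv M i) = M.lam i * xv M i - 1 := by
  have h := congrFun (C_xv M) i
  rw [C_mul] at h
  simp only [Pi.neg_apply, Pi.one_apply] at h
  linarith

lemma xv_pos (i : Fin p) : 0 < xv M i := by
  classical
  have : Nonempty (Fin p) := ⟨i⟩
  obtain ⟨m, hm⟩ := Finite.exists_min (xv M)
  refine lt_of_lt_of_le ?_ (hm i)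
  have h1 := xv_eq M m
  have h2 : 0 ≤ ∑ j, M.Q m j * (xv M j - xv M m) := by
    apply Finset.sum_nonneg
    intro j _
    by_cases hj : m = j
    · subst hj; simp
    · exact mul_nonneg (M.gen.offdiag m j hj) (by linarith [hm j])
  by_contra hx
  have : M.lam m * xv M m ≤ 0 := mul_nonpos_of_nonneg_of_nonpos (M.lam_nonneg m) (not_lt.1 hx)
  linarith

/-- `∑ π_i / x_i ≤ π D 1` -/
lemma sum_inv_le {piv : Fin p → ℝ} (h : M.IsStat piv) :
    ∑ i, piv i / xv M i ≤ ∑ i, piv i * M.lam i := by
  classical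
  have h1 : ∀ i, ∑ j, M.Q i j * Real.log (xv M j) ≤ M.lam i - 1 / xv M i := by
    intro i
    have hx := xv_pos M i
    have e1 : M.lam i - 1 / xv M i = ∑ j, M.Q i j * (xv M j / xv M i - 1) := by
      have : ∑ j, M.Q i j * (xv M j / xv M i - 1) =
          (∑ j, M.Q i j * (xv M j - xv M i)) / xv M i := by
        rw [Finset.sum_div]
        exact Finset.sum_congr rfl fun j _ => by field_simp
      rw [this, xv_eq]
      field_simp
    have e2 : ∑ j, M.Q i j * Real.log (xv M j) =
        ∑ j, M.Q i j * Real.log (xv M j / xv M i) := by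
      have e3 : ∑ j, M.Q i j * Real.log (xv M j / xv M i) =
          ∑ j, M.Q i j * Real.log (xv M j) - (∑ j, M.Q i j) * Real.log (xv M i) := by
        rw [Finset.sum_mul, ← Finset.sum_sub_distrib]
        refine Finset.sum_congr rfl fun j _ => ?_
        rw [Real.log_div (xv_pos M j).ne' hx.ne']
        ring
      rw [e3, M.gen.rowsum i, zero_mul, sub_zero]
    rw [e1, e2]
    apply Finset.sum_le_sum
    intro j _
    by_cases hj : i = j
    · subst hj
      rw [div_self hx.ne']
      simp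
    · exact mul_le_mul_of_nonneg_left (Real.log_le_sub_one_of_pos (div_pos (xv_pos M j) hx))
        (M.gen.offdiag i j hj)
  have h2 : ∑ i, piv i * ∑ j, M.Q i j * Real.log (xv M j) = 0 := by
    have : ∑ i, piv i * ∑ j, M.Q i j * Real.log (xv M j) =
        ∑ j, (∑ i, piv i * M.Q i j) * Real.log (xv M j) := by
      simp_rw [Finset.mul_sum, Finset.sum_mul]
      rw [Finset.sum_comm]
      exact Finset.sum_congr rfl fun j _ => Finset.sum_congr rfl fun i _ => by ring
    rw [this]
    apply Finset.sum_eq_zero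
    intro j _
    have h3 : ∑ i, piv i * M.Q i j = 0 := congrFun h.stat j
    rw [h3, zero_mul]
  have h3 : ∑ i, piv i * ∑ j, M.Q i j * Real.log (xv M j) ≤
      ∑ i, piv i * (M.lam i - 1 / xv M i) :=
    Finset.sum_le_sum fun i _ => mul_le_mul_of_nonneg_left (h1 i) (h.nonneg i)
  rw [h2] at h3
  have h4 : ∑ i, piv i * (M.lam i - 1 / xv M i) =
      ∑ i, piv i * M.lam i - ∑ i, piv i / xv M i := by
    rw [← Finset.sum_sub_distrib]
    exact Finset.sum_congr rfl fun i _ => by ring
  rw [h4] at h3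
  linarith

/-- `π C 1 = - π D 1` -/
lemma piC {piv : Fin p → ℝ} : piv ⬝ᵥ (M.C *ᵥ 1) = -∑ i, piv i * M.lam i := by
  unfold dotProduct
  rw [← Finset.sum_neg_distrib]
  refine Finset.sum_congr rfl fun i _ => ?_
  rw [C_mul]
  simp

lemma piCinv {piv : Fin p → ℝ} : piv ⬝ᵥ (M.C⁻¹ *ᵥ 1) = -∑ i, piv i * xv M i := by
  unfold dotProduct xv
  rw [← Finset.sum_neg_distrib]
  refine Finset.sum_congr rfl fun i _ => ?_
  simp

/-- For every MMPP of every order, with stationary vector `π`, the matrix `C` is nonsingular and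
`(π C 1) (π C⁻¹ 1) ≥ 1`, that is `c² ≥ 1`; and `c² = 1` if and only if all the arrival rates are
equal. -/
theorem result {p : ℕ} (M : MMPP p) (piv : Fin p → ℝ) (h : M.IsStat piv) :
    IsUnit M.C ∧ 1 ≤ (piv ⬝ᵥ (M.C *ᵥ 1)) * (piv ⬝ᵥ (M.C⁻¹ *ᵥ 1)) ∧
    ((piv ⬝ᵥ (M.C *ᵥ 1)) * (piv ⬝ᵥ (M.C⁻¹ *ᵥ 1)) = 1 ↔ ∀ i j, M.lam i = M.lam j) := by
  classical
  have hprod : (piv ⬝ᵥ (M.C *ᵥ 1)) * (piv ⬝ᵥ (M.C⁻¹ *ᵥ 1)) =
      (∑ i, piv i * M.lam i) * ∑ i, piv i * xv M i := by
    rw [piC, piCinv]; ring
  have hx := xv_pos M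
  have hp := stat_pos M h
  obtain ⟨k, hk⟩ := M.lam_ne
  have hS : 0 < ∑ i, piv i * xv M i :=
    Finset.sum_pos (fun i _ => mul_pos (hp i) (hx i)) ⟨k, Finset.mem_univ k⟩
  -- the variance identity: `∑ π_i (x_i - s)² / (x_i s) = s ∑ π_i / x_i - 1`
  obtain ⟨s, hs⟩ : ∃ s, s = ∑ i, piv i * xv M i := ⟨_, rfl⟩
  have hs0 : 0 < s := by rw [hs]; exact hS
  have hvar : s * ∑ i, piv i / xv M i - 1 = ∑ i, piv i * ((xv M i - s) ^ 2 / (xv M i * s)) := by
    have e : ∀ i, piv i * ((xv M i - s) ^ 2 / (xv M i * s)) =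
        piv i * xv M i / s - 2 * piv i + s * (piv i / xv M i) := by
      intro i
      have h1 := (hx i).ne'
      have h2 := hs0.ne'
      field_simp
      ring
    rw [Finset.sum_congr rfl fun i _ => e i, Finset.sum_add_distrib, Finset.sum_sub_distrib,
      ← Finset.sum_div, ← Finset.mul_sum, ← Finset.mul_sum, h.sum_one, ← hs, div_self hs0.ne']
    ring
  have hnn : ∀ i ∈ Finset.univ, 0 ≤ piv i * ((xv M i - s) ^ 2 / (xv M i * s)) := fun i _ =>
    mul_nonneg (hp i).le (div_nonneg (sq_nonneg _) (mul_pos (hx i) hs0).le)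
  have hle := sum_inv_le M h
  have hge1 : 1 ≤ s * ∑ i, piv i / xv M i := by
    have := Finset.sum_nonneg hnn
    rw [← hvar] at this
    linarith
  have hmul : s * ∑ i, piv i / xv M i ≤ s * ∑ i, piv i * M.lam i :=
    mul_le_mul_of_nonneg_left hle hs0.le
  refine ⟨C_unit M, ?_, ?_⟩
  · rw [hprod, ← hs, mul_comm]
    linarith
  · rw [hprod, ← hs, mul_comm]
    constructor
    · intro h1
      have h2 : ∑ i, piv i * ((xv M i - s) ^ 2 / (xv M i * s)) = 0 := by
        rw [← hvar]; linarith
      have h3 : ∀ i, xv M i = s := by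
        intro i
        have h4 := (Finset.sum_eq_zero_iff_of_nonneg hnn).1 h2 i (Finset.mem_univ i)
        rcases mul_eq_zero.1 h4 with h5 | h5
        · exact absurd h5 (hp i).ne'
        · rcases div_eq_zero_iff.1 h5 with h6 | h6
          · have := pow_eq_zero_iff (two_ne_zero) |>.1 h6
            linarith
          · exact absurd h6 (mul_pos (hx i) hs0).ne'
      have h4 : ∀ i, M.lam i * s = 1 := by
        intro i
        have h5 := xv_eq M i
        simp only [h3, sub_self, mul_zero, Finset.sum_const_zero] at h5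
        linarith
      intro i j
      have h5 : M.lam i * s = M.lam j * s := by rw [h4, h4]
      exact mul_right_cancel₀ hs0.ne' h5
    · intro h1
      have h2 : ∀ i, M.lam i = M.lam k := fun i => h1 i k
      have hk0 : 0 < M.lam k := lt_of_le_of_ne (M.lam_nonneg k) (Ne.symm hk)
      -- the vector `x` is constant
      have h3 : M.C *ᵥ (fun _ => (M.lam k)⁻¹) = -1 := by
        funext i
        rw [C_mul]
        simp only [sub_self, mul_zero, Finset.sum_const_zero, Pi.neg_apply, Pi.one_apply]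
        rw [h2 i, mul_inv_cancel₀ hk0.ne']
        norm_num
      have h4 : xv M = fun _ => (M.lam k)⁻¹ := by
        have hinj := Matrix.mulVec_injective_iff_isUnit.2 (C_unit M)
        exact hinj ((C_xv M).trans h3.symm)
      have h5 : s = (M.lam k)⁻¹ := by
        rw [hs, h4, ← Finset.sum_mul, h.sum_one, one_mul]
      have h6 : ∑ i, piv i * M.lam i = M.lam k := by
        rw [Finset.sum_congr rfl fun i _ => by rw [h2 i], ← Finset.sum_mul, h.sum_one, one_mul]
      rw [h5, h6, inv_mul_cancel₀ hk0.ne']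

end Pool.Agent.Results.MP_af8c33_pr.SquaredCoefficientOfVariation
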